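import Mathlib
import Pool.Agent.H39.TTDef

/-!
# TT1: the closed form of the coefficients of `T_{2k}` (Vandermonde)
-/

set_option autoImplicit false

namespace Pool.Agent.H39.TT

open Finset Nat

/-- generalized binomial coefficients -/
def gch (x : ℚ) : ℕ → ℚ
  | 0 => 1
  | (j + 1) => gch x j * (x - j) / (j + 1)

theorem gch_succ (x : ℚ) (j : ℕ) : gch x (j + 1) * (j + 1) = gch x j * (x - j) := by
  have h : ((j : ℚ) + 1) ≠ 0 := by positivity
  rw [gch]; field_simp

theorem gch_pascal (x : ℚ) (j : ℕ) : gch (x + 1) (j + 1) = gch x (j + 1) + gch x j := by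
  induction j with
  | zero =>
    have h1 := gch_succ (x + 1) 0
    have h2 := gch_succ x 0
    simp only [gch] at h1 h2 ⊢
    norm_num
  | succ j ih =>
    have h1 := gch_succ (x + 1) (j + 1)
    have h2 := gch_succ x (j + 1)
    have h3 := gch_succ x j
    rw [ih] at h1
    have h : ((j : ℚ) + 2) ≠ 0 := by positivity
    apply mul_right_cancel₀ h
    push_cast at h1 h2 h3
    linear_combination h1 - h2 - h3

theorem gch_vandermonde (x : ℚ) (N : ℕ) : ∀ a : ℕ,
    ∑ j ∈ range (N + 1), (N.choose j : ℚ) * gch x (a + j) = gch (x + N) (a + N) := by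
  induction N with
  | zero => intro a; simp
  | succ N ih =>
    intro a
    have h1 : ∑ j ∈ range (N + 1 + 1), ((N + 1).choose j : ℚ) * gch x (a + j)
        = ∑ j ∈ range (N + 1), (N.choose j : ℚ) * gch x (a + j)
          + ∑ j ∈ range (N + 1), (N.choose j : ℚ) * gch x (a + 1 + j) := by
      rw [Finset.sum_range_succ']
      have h2 : ∀ j ∈ range (N + 1), ((N + 1).choose (j + 1) : ℚ) * gch x (a + (j + 1))
          = (N.choose j : ℚ) * gch x (a + 1 + j) + (N.choose (j + 1) : ℚ) * gch x (a + (j + 1)) := by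
        intro j _
        rw [Nat.choose_succ_succ]
        have : a + 1 + j = a + (j + 1) := by ring
        rw [this]
        push_cast
        ring
      rw [Finset.sum_congr rfl h2, Finset.sum_add_distrib]
      have h3 : ∑ j ∈ range (N + 1), (N.choose (j + 1) : ℚ) * gch x (a + (j + 1)) + gch x a
          = ∑ j ∈ range (N + 1), (N.choose j : ℚ) * gch x (a + j) := by
        have h4 := Finset.sum_range_succ' (fun j => (N.choose j : ℚ) * gch x (a + j)) (N + 1)
        rw [Finset.sum_range_succ] at h4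
        simp only [Nat.choose_succ_self, Nat.choose_zero_right, Nat.cast_zero, Nat.cast_one,
          zero_mul, add_zero, one_mul] at h4
        rw [h4]
      simp only [Nat.choose_zero_right, Nat.cast_one, one_mul, add_zero]
      rw [add_assoc, h3, add_comm]
    rw [h1, ih a, ih (a + 1)]
    have h5 := gch_pascal (x + N) (a + N)
    have h6 : a + (N + 1) = a + N + 1 := by ring
    have h7 : a + 1 + N = a + N + 1 := by ring
    have h8 : x + ((N + 1 : ℕ) : ℚ) = x + N + 1 := by push_cast; ring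
    rw [h6, h7, h8, h5, add_comm]

/-- `(2k)! (k-j)! = 4^j k! j! C(k-1/2, j) (2k-2j)!` with `k = j + m` -/
theorem gch_half (j : ℕ) : ∀ m : ℕ,
    ((2 * (j + m))! : ℚ) * (m ! : ℚ)
      = 4 ^ j * ((j + m)! : ℚ) * (j ! : ℚ) * gch (((j + m : ℕ) : ℚ) - 1 / 2) j * ((2 * m)! : ℚ) := by
  induction j with
  | zero => intro m; simp [gch]; ring
  | succ j ih =>
    intro m
    have h1 := ih (m + 1)
    have e1 : j + (m + 1) = j + 1 + m := by ring
    rw [e1] at h1
    have h2 := gch_succ (((j + 1 + m : ℕ) : ℚ) - 1 / 2) j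
    have e2 : ((m + 1)! : ℚ) = ((m : ℚ) + 1) * (m ! : ℚ) := by
      rw [Nat.factorial_succ]; push_cast; ring
    have e3 : ((2 * (m + 1))! : ℚ) = (2 * (m : ℚ) + 2) * (2 * m + 1) * ((2 * m)! : ℚ) := by
      have : 2 * (m + 1) = 2 * m + 1 + 1 := by ring
      rw [this, Nat.factorial_succ, Nat.factorial_succ]; push_cast; ring
    have e4 : ((j + 1)! : ℚ) = ((j : ℚ) + 1) * (j ! : ℚ) := by
      rw [Nat.factorial_succ]; push_cast; ring
    rw [e2, e3] at h1
    rw [e4]
    have h : ((m : ℚ) + 1) ≠ 0 := by positivity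
    apply mul_right_cancel₀ h
    push_cast at h1 h2 ⊢
    linear_combination h1 - (4 ^ (j + 1) * ((j + 1 + m)! : ℚ) * (j ! : ℚ) * ((2 * m)! : ℚ) * (m + 1)) * h2

theorem tau_closed {k i : ℕ} (h : i ≤ k) :
    tau k i * ((2 * k - i)! * (2 * k)! * (k - i)!) = k.choose i * k ! * (4 * k - 2 * i)! := by
  obtain ⟨N, rfl⟩ := Nat.exists_eq_add_of_le h
  have e1 : i + N - i = N := by omega
  have e2 : 2 * (i + N) - i = N + (i + N) := by omega
  have e3 : 4 * (i + N) - 2 * i = 2 * (N + (i + N)) := by omega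
  rw [e1, e2, e3]
  have key : (tau (i + N) i : ℚ) * ((i ! : ℚ) * (N ! : ℚ))
      = 4 ^ N * ((i + N)! : ℚ) * gch (((i + N : ℕ) : ℚ) - 1 / 2 + N) N := by
    have hv := gch_vandermonde (((i + N : ℕ) : ℚ) - 1 / 2) N 0
    rw [Nat.zero_add] at hv
    rw [← hv]
    unfold tau
    rw [e1]
    push_cast
    rw [Finset.sum_mul, Finset.mul_sum]
    apply Finset.sum_congr rfl
    intro j hj
    have hjN : j ≤ N := by
      have := Finset.mem_range.mp hj; omega
    obtain ⟨M, rfl⟩ := Nat.exists_eq_add_of_le hjN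
    have f1 : i + (j + M) - j = i + M := by omega
    have f2 : i + (j + M) - j - i = M := by omega
    rw [f2, f1, Nat.zero_add]
    have g1 := gch_half j (i + M)
    have f3 : j + (i + M) = i + (j + M) := by ring
    rw [f3] at g1
    have c1 : ((2 * (i + (j + M))).choose (2 * j) : ℚ) * (((2 * j)! : ℚ) * ((2 * (i + M))! : ℚ))
        = ((2 * (i + (j + M)))! : ℚ) := by
      have := Nat.choose_mul_factorial_mul_factorial (n := 2 * (i + (j + M))) (k := 2 * j) (by omega)
      have f4 : 2 * (i + (j + M)) - 2 * j = 2 * (i + M) := by omega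
      rw [f4, mul_assoc] at this
      exact_mod_cast this
    have c2 : (j.centralBinom : ℚ) * ((j ! : ℚ) * (j ! : ℚ)) = ((2 * j)! : ℚ) := by
      have := Nat.choose_mul_factorial_mul_factorial (n := 2 * j) (k := j) (by omega)
      have f4 : 2 * j - j = j := by omega
      rw [f4, mul_assoc, ← Nat.centralBinom_eq_two_mul_choose] at this
      exact_mod_cast this
    have c3 : ((i + M).choose i : ℚ) * ((i ! : ℚ) * (M ! : ℚ)) = ((i + M)! : ℚ) := by
      have := Nat.choose_mul_factorial_mul_factorial (n := i + M) (k := i) (by omega)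
      have f4 : i + M - i = M := by omega
      rw [f4, mul_assoc] at this
      exact_mod_cast this
    have c4 : ((j + M).choose j : ℚ) * ((j ! : ℚ) * (M ! : ℚ)) = ((j + M)! : ℚ) := by
      have := Nat.choose_mul_factorial_mul_factorial (n := j + M) (k := j) (by omega)
      have f4 : j + M - j = M := by omega
      rw [f4, mul_assoc] at this
      exact_mod_cast this
    have p1 : ((2 * (i + M))! : ℚ) ≠ 0 := by positivity
    have p2 : ((2 * j)! : ℚ) ≠ 0 := by positivity
    have p3 : (j ! : ℚ) ≠ 0 := by positivity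
    have p4 : (M ! : ℚ) ≠ 0 := by positivity
    have p5 : ((i + M)! : ℚ) ≠ 0 := by positivity
    have p6 : (i ! : ℚ) ≠ 0 := by positivity
    -- multiply by (2 (i+M))! * j! * M! * (2j)!
    have hc : ((2 * (i + M))! : ℚ) * (j ! : ℚ) * (M ! : ℚ) ≠ 0 := by positivity
    apply mul_right_cancel₀ hc
    have q1 : ((2 * (i + (j + M))).choose (2 * j) : ℚ) * (j.centralBinom : ℚ) * ((j ! : ℚ) * (j ! : ℚ))
        * ((2 * (i + M))! : ℚ) = ((2 * (i + (j + M)))! : ℚ) := by
      rw [← c1, ← c2]; ring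
    have f5 : (4 : ℚ) ^ (j + M) = 4 ^ j * 4 ^ M := by rw [pow_add]
    rw [← c4, f5]
    -- LHS = C1 * cb * (C3 * 4^M) * (i! * (C4 j! M!)) * ((2(i+M))! j! M!)
    have q2 : ((2 * (i + (j + M)))! : ℚ) * ((i + M)! : ℚ)
        = 4 ^ j * ((i + (j + M))! : ℚ) * (j ! : ℚ)
          * gch (((i + (j + M) : ℕ) : ℚ) - 1 / 2) j * ((2 * (i + M))! : ℚ) := g1
    push_cast at q2 ⊢
    have q3 : ((2 * (i + (j + M))).choose (2 * j) : ℚ) * (j.centralBinom : ℚ) * ((j ! : ℚ) * (j ! : ℚ))
        * ((2 * (i + M))! : ℚ) * (((i + M).choose i : ℚ) * ((i ! : ℚ) * (M ! : ℚ)))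
        = 4 ^ j * ((i + (j + M))! : ℚ) * (j ! : ℚ)
          * gch ((i : ℚ) + (j + M) - 1 / 2) j * ((2 * (i + M))! : ℚ) := by
      rw [q1, c3, q2]
    linear_combination (4 ^ M * ((j + M).choose j : ℚ) * (M ! : ℚ)) * q3
  have g2 := gch_half N (i + N)
  have e4 : ((N + (i + N) : ℕ) : ℚ) - 1 / 2 = ((i + N : ℕ) : ℚ) - 1 / 2 + N := by push_cast; ring
  rw [e4] at g2
  have c5 : ((i + N).choose i : ℚ) * ((i ! : ℚ) * (N ! : ℚ)) = ((i + N)! : ℚ) := by
    have := Nat.choose_mul_factorial_mul_factorial (n := i + N) (k := i) (by omega)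
    rw [e1, mul_assoc] at this
    exact_mod_cast this
  have goalQ : (tau (i + N) i : ℚ) * (((N + (i + N))! : ℚ) * ((2 * (i + N))! : ℚ) * (N ! : ℚ))
      = ((i + N).choose i : ℚ) * ((i + N)! : ℚ) * ((2 * (N + (i + N)))! : ℚ) := by
    have hc : (i ! : ℚ) * (N ! : ℚ) ≠ 0 := by positivity
    apply mul_right_cancel₀ hc
    linear_combination (((N + (i + N))! : ℚ) * ((2 * (i + N))! : ℚ) * (N ! : ℚ)) * key
      - ((i + N)! : ℚ) * g2 - (((i + N)! : ℚ) * ((2 * (N + (i + N)))! : ℚ)) * c5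
  exact_mod_cast goalQ

end Pool.Agent.H39.TT
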